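import Pool.Agent.H37.CTN.Stmts

/-! Row GN3 of the board `ctn`: transvections generate `SL_n(F)`. -/

set_option autoImplicit false

namespace Pool.CND

open Matrix

private lemma gn3_vmv {F : Type} [Field F] {n : ℕ} (i j : Fin n) (c : F) :
    Matrix.vecMulVec (Pi.single i c) (Pi.single j 1) = Matrix.single i j c := by
  ext k l
  simp only [Matrix.vecMulVec_apply, Matrix.single_apply, Pi.single_apply]
  by_cases hk : k = i
  · by_cases hl : l = j
    · simp [hk, hl]
    · simp [hk, hl, Ne.symm hl]
  · by_cases hl : l = j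
    · simp [hk, hl, Ne.symm hk]
    · simp [hk, hl, Ne.symm hk]

private def gn3Q {F : Type} [Field F] {n : ℕ} (G₀ : Subgroup (Matrix.SpecialLinearGroup (Fin n) F))
    (A : Matrix (Fin n) (Fin n) F) : Prop :=
  ∃ h : A.det = 1, (⟨A, h⟩ : Matrix.SpecialLinearGroup (Fin n) F) ∈ G₀

private lemma gn3Q_mul {F : Type} [Field F] {n : ℕ}
    {G₀ : Subgroup (Matrix.SpecialLinearGroup (Fin n) F)} {A B : Matrix (Fin n) (Fin n) F}
    (hA : gn3Q G₀ A) (hB : gn3Q G₀ B) : gn3Q G₀ (A * B) := by
  obtain ⟨h1, m1⟩ := hA
  obtain ⟨h2, m2⟩ := hB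
  refine ⟨by rw [Matrix.det_mul, h1, h2, mul_one], ?_⟩
  have := G₀.mul_mem m1 m2
  exact this

private lemma gn3Q_one {F : Type} [Field F] {n : ℕ}
    {G₀ : Subgroup (Matrix.SpecialLinearGroup (Fin n) F)} : gn3Q G₀ 1 :=
  ⟨Matrix.det_one, G₀.one_mem⟩

private lemma gn3Q_tr {F : Type} [Field F] {n : ℕ}
    {G₀ : Subgroup (Matrix.SpecialLinearGroup (Fin n) F)}
    (hG : ∀ (g : Matrix.SpecialLinearGroup (Fin n) F) (v φ : Fin n → F), φ ⬝ᵥ v = 0 →
      g.1 = 1 + Matrix.vecMulVec v φ → g ∈ G₀) (i j : Fin n) (hij : i ≠ j) (c : F) :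
    gn3Q G₀ (Matrix.transvection i j c) := by
  refine ⟨Matrix.det_transvection_of_ne i j hij c, ?_⟩
  refine hG _ (Pi.single i c) (Pi.single j 1) ?_ ?_
  · simp [hij.symm]
  · rw [gn3_vmv]; rfl

private lemma gn3_id {F : Type} [Field F] {n : ℕ} (i j : Fin n) (hij : i ≠ j) (a : F)
    (ha : a ≠ 0) :
    Matrix.transvection i j a * Matrix.transvection j i (-a⁻¹) * Matrix.transvection i j (a - 1) *
      Matrix.transvection j i 1 * Matrix.transvection i j (-1) =
      1 + Matrix.single i i (a - 1) + Matrix.single j j (a⁻¹ - 1) := by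
  have z1 : ∀ x y : F, Matrix.single i j x * Matrix.single i j y = 0 := fun x y =>
    Matrix.single_mul_single_of_ne (c := x) i j i hij.symm y
  have z2 : ∀ x y : F, Matrix.single j i x * Matrix.single j i y = 0 := fun x y =>
    Matrix.single_mul_single_of_ne (c := x) j i j hij y
  have z3 : ∀ x y : F, Matrix.single i i x * Matrix.single j i y = 0 := fun x y =>
    Matrix.single_mul_single_of_ne (c := x) i i j hij y
  have z4 : ∀ x y : F, Matrix.single j j x * Matrix.single i j y = 0 := fun x y =>
    Matrix.single_mul_single_of_ne (c := x) j j i hij.symm y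
  have sb : ∀ (k l : Fin n) (x y : F), Matrix.single k l (x - y) =
      Matrix.single k l x - Matrix.single k l y := by
    intro k l x y
    rw [sub_eq_add_neg, Matrix.single_add, ← Matrix.single_neg, ← sub_eq_add_neg]
  have h1 : Matrix.transvection i j a * Matrix.transvection j i (-a⁻¹) =
      1 + Matrix.single i j a + Matrix.single j i (-a⁻¹) + Matrix.single i i (-1) := by
    have e : a * -a⁻¹ = -1 := by field_simp
    simp only [Matrix.transvection, mul_add, add_mul, one_mul, mul_one,
      Matrix.single_mul_single_same, e]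
    abel
  have h2 : (1 + Matrix.single i j a + Matrix.single j i (-a⁻¹) + Matrix.single i i (-1)) *
      Matrix.transvection i j (a - 1) =
      1 + Matrix.single i j a + Matrix.single j i (-a⁻¹) + Matrix.single i i (-1) +
        Matrix.single j j (a⁻¹ - 1) := by
    have e : -a⁻¹ * (a - 1) = a⁻¹ - 1 := by field_simp; ring
    have e2 : (-1 : F) * (a - 1) = -(a - 1) := by ring
    simp only [Matrix.transvection, mul_add, add_mul, one_mul, mul_one,
      Matrix.single_mul_single_same, e, e2, z1, z2, z3, z4]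
    have e3 : Matrix.single i j (-(a - 1)) = -Matrix.single i j (a - 1) :=
      (Matrix.single_neg _ _ _).symm
    rw [e3]
    abel
  have h3 : (1 + Matrix.single i j a + Matrix.single j i (-a⁻¹) + Matrix.single i i (-1) +
        Matrix.single j j (a⁻¹ - 1)) * Matrix.transvection j i 1 =
      1 + Matrix.single i j a + Matrix.single i i (a - 1) + Matrix.single j j (a⁻¹ - 1) := by
    simp only [Matrix.transvection, mul_add, add_mul, one_mul, mul_one,
      Matrix.single_mul_single_same, z1, z2, z3, z4]
    have e3 : Matrix.single j i (a⁻¹ - 1) = Matrix.single j i a⁻¹ - Matrix.single j i 1 := by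
      rw [sb]
    have e4 : Matrix.single i i (a - 1) = Matrix.single i i a - Matrix.single i i 1 := by
      rw [sb]
    have e5 : Matrix.single j i (-a⁻¹) = -Matrix.single j i a⁻¹ :=
      (Matrix.single_neg _ _ _).symm
    have e6 : Matrix.single i i (-1 : F) = -Matrix.single i i 1 :=
      (Matrix.single_neg _ _ _).symm
    rw [e3, e4, e5, e6]
    abel
  have h4 : (1 + Matrix.single i j a + Matrix.single i i (a - 1) + Matrix.single j j (a⁻¹ - 1)) *
      Matrix.transvection i j (-1) =
      1 + Matrix.single i i (a - 1) + Matrix.single j j (a⁻¹ - 1) := by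
    simp only [Matrix.transvection, mul_add, add_mul, one_mul, mul_one,
      Matrix.single_mul_single_same, z1, z2, z3, z4]
    have e3 : Matrix.single i j ((a - 1) * -1) = -Matrix.single i j a + Matrix.single i j 1 := by
      rw [Matrix.single_neg, ← Matrix.single_add]
      congr 1; ring
    have e6 : Matrix.single i j (-1 : F) = -Matrix.single i j 1 :=
      (Matrix.single_neg _ _ _).symm
    rw [e3, e6]
    abel
  rw [h1, h2, h3, h4]

private lemma gn3Q_h {F : Type} [Field F] {n : ℕ}
    {G₀ : Subgroup (Matrix.SpecialLinearGroup (Fin n) F)}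
    (hG : ∀ (g : Matrix.SpecialLinearGroup (Fin n) F) (v φ : Fin n → F), φ ⬝ᵥ v = 0 →
      g.1 = 1 + Matrix.vecMulVec v φ → g ∈ G₀) (i j : Fin n) (hij : i ≠ j) (a : F) (ha : a ≠ 0) :
    gn3Q G₀ (Matrix.diagonal (Function.update (Function.update 1 i a) j a⁻¹)) := by
  have hd : Matrix.diagonal (Function.update (Function.update 1 i a) j a⁻¹) =
      1 + Matrix.single i i (a - 1) + Matrix.single j j (a⁻¹ - 1) := by
    ext k l
    simp only [Matrix.diagonal_apply, Matrix.add_apply, Matrix.one_apply, Matrix.single_apply,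
      Function.update_apply, Pi.one_apply]
    by_cases hkl : k = l
    · subst hkl
      by_cases hk : k = j
      · subst hk
        simp [hij]
      · by_cases hk2 : k = i
        · subst hk2
          simp [hij, Ne.symm hij]
        · simp [hk, hk2, Ne.symm hk, Ne.symm hk2]
    · have h1 : ¬ (i = k ∧ i = l) := fun h => hkl (h.1.symm.trans h.2)
      have h2 : ¬ (j = k ∧ j = l) := fun h => hkl (h.1.symm.trans h.2)
      simp [hkl, h1, h2]
  rw [hd, ← gn3_id i j hij a ha]
  exact gn3Q_mul (gn3Q_mul (gn3Q_mul (gn3Q_mul (gn3Q_tr hG i j hij a)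
    (gn3Q_tr hG j i hij.symm _)) (gn3Q_tr hG i j hij _)) (gn3Q_tr hG j i hij.symm _))
    (gn3Q_tr hG i j hij _)

private lemma gn3Q_diag {F : Type} [Field F] {n : ℕ}
    {G₀ : Subgroup (Matrix.SpecialLinearGroup (Fin n) F)}
    (hG : ∀ (g : Matrix.SpecialLinearGroup (Fin n) F) (v φ : Fin n → F), φ ⬝ᵥ v = 0 →
      g.1 = 1 + Matrix.vecMulVec v φ → g ∈ G₀) :
    ∀ (m : ℕ) (D : Fin n → F) (s : Finset (Fin n)), s.card = m → (∀ k ∉ s, D k = 1) →
      ∏ k, D k = 1 → gn3Q G₀ (Matrix.diagonal D) := by
  intro m
  induction m with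
  | zero =>
    intro D s hs hD hp
    have hs0 : s = ∅ := Finset.card_eq_zero.1 hs
    have : D = 1 := by
      funext k
      exact hD k (by simp [hs0])
    rw [this]
    have h1 : Matrix.diagonal (1 : Fin n → F) = 1 := Matrix.diagonal_one
    rw [h1]
    exact gn3Q_one
  | succ m ih =>
    intro D s hs hD hp
    obtain ⟨i, hi⟩ : s.Nonempty := by
      rw [← Finset.card_pos, hs]; omega
    by_cases hs1 : ∃ j ∈ s, j ≠ i
    · obtain ⟨j, hj, hji⟩ := hs1
      have hne : ∀ k, D k ≠ 0 := by
        intro k hk
        have : ∏ k, D k = 0 := Finset.prod_eq_zero (Finset.mem_univ k) hk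
        rw [this] at hp
        exact zero_ne_one hp
      have hQ := gn3Q_h hG i j hji.symm (D i) (hne i)
      have heq : Matrix.diagonal D =
          Matrix.diagonal (Function.update (Function.update D i 1) j (D j * D i)) *
            Matrix.diagonal (Function.update (Function.update 1 i (D i)) j (D i)⁻¹) := by
        rw [Matrix.diagonal_mul_diagonal]
        congr 1
        funext k
        by_cases hk : k = j
        · subst hk
          simp [mul_assoc, hne i]
        · by_cases hk2 : k = i
          · subst hk2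
            simp [hk]
          · simp [hk, hk2]
      have hdet : (Matrix.diagonal
          (Function.update (Function.update D i 1) j (D j * D i))).det = 1 := by
        obtain ⟨h1, _⟩ := hQ
        have h2 : (Matrix.diagonal D).det = 1 := by rw [Matrix.det_diagonal, hp]
        rw [heq, Matrix.det_mul, h1, mul_one] at h2
        exact h2
      rw [heq]
      refine gn3Q_mul (ih _ (s.erase i) (by rw [Finset.card_erase_of_mem hi, hs]; rfl) ?_ ?_) hQ
      · intro k hk
        by_cases hki : k = i
        · subst hki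
          simp [hji.symm]
        · have hks : k ∉ s := fun h => hk (Finset.mem_erase.2 ⟨hki, h⟩)
          have hkj : k ≠ j := fun h => hks (h ▸ hj)
          simp [hki, hkj, hD k hks]
      · rw [← Matrix.det_diagonal, hdet]
    · push Not at hs1
      refine ih D (s.erase i) (by rw [Finset.card_erase_of_mem hi, hs]; rfl) ?_ hp
      have hk1 : ∀ k, k ≠ i → D k = 1 := by
        intro k hk
        exact hD k (fun h => hk (hs1 k h))
      have hi1 : D i = 1 := by
        rw [← hp]
        exact (Finset.prod_eq_single i (fun k _ hk => hk1 k hk)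
          (fun h => absurd (Finset.mem_univ i) h)).symm
      intro k _
      by_cases hk : k = i
      · rw [hk, hi1]
      · exact hk1 k hk

private lemma gn3Q_list {F : Type} [Field F] {n : ℕ}
    {G₀ : Subgroup (Matrix.SpecialLinearGroup (Fin n) F)}
    (hG : ∀ (g : Matrix.SpecialLinearGroup (Fin n) F) (v φ : Fin n → F), φ ⬝ᵥ v = 0 →
      g.1 = 1 + Matrix.vecMulVec v φ → g ∈ G₀)
    (L : List (Matrix.TransvectionStruct (Fin n) F)) :
    gn3Q G₀ (L.map Matrix.TransvectionStruct.toMatrix).prod := by
  induction L with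
  | nil => simpa using gn3Q_one
  | cons t L ih =>
    rw [List.map_cons, List.prod_cons]
    exact gn3Q_mul (gn3Q_tr hG t.i t.j t.hij t.c) ih

theorem gn3_thm : S_GN3 := by
  intro F _ n G₀ hG
  rw [eq_top_iff]
  intro g _
  obtain ⟨L, L', D, h⟩ := Matrix.Pivot.exists_list_transvec_mul_diagonal_mul_list_transvec g.1
  have h1 := gn3Q_list hG L
  have h2 := gn3Q_list hG L'
  have hdet : ∏ k, D k = 1 := by
    obtain ⟨d1, _⟩ := h1
    obtain ⟨d2, _⟩ := h2
    have := g.2
    rw [h, Matrix.det_mul, Matrix.det_mul, d1, d2, one_mul, mul_one, Matrix.det_diagonal] at this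
    exact this
  have h3 := gn3Q_diag hG _ D Finset.univ rfl (fun k hk => absurd (Finset.mem_univ k) hk) hdet
  have h4 := gn3Q_mul (gn3Q_mul h1 h3) h2
  rw [← h] at h4
  obtain ⟨hd, hm⟩ := h4
  exact hm

end Pool.CND
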